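import Pool.Agent.Lib.MP_acafa7_al.F.IfaceG

/-! FILLALL: filling all faces of a union of faces, one face at a time. -/

namespace MSG.F74

open Classical

theorem face_mem {D : Type} (M : DMap D) (R : List D) (hR : M.IsFace R) (d : D) :
    M.φ d ∈ R ↔ d ∈ R := by
  obtain ⟨-, -, h2⟩ := hR
  have h1 : M.φ d ∈ R.map M.φ ↔ M.φ d ∈ R := by
    rw [h2, List.mem_rotate]
  rw [← h1, List.mem_map_of_injective M.φ.injective]

/-- the face of a dart which is not fixed -/
theorem face_ex {D : Type} [Fintype D] (M : DMap D) (b : D) (hb : M.φ b ≠ b) :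
    ∃ F : List D, M.IsFace F ∧ b ∈ F ∧ 2 ≤ F.length ∧
      ∀ S : Set D, b ∈ S → (∀ d ∈ S, M.φ d ∈ S) → ∀ d ∈ F, d ∈ S := by
  have hs : b ∈ M.φ.support := Equiv.Perm.mem_support.2 hb
  have hbF : b ∈ M.φ.toList b := Equiv.Perm.mem_toList_iff.2 ⟨Equiv.Perm.SameCycle.refl _ _, hs⟩
  refine ⟨M.φ.toList b, ⟨?_, Equiv.Perm.nodup_toList _ _, ?_⟩, hbF, ?_, ?_⟩
  · exact List.ne_nil_of_mem hbF
  · have h1 := Equiv.Perm.toList_pow_apply_eq_rotate M.φ b 1
    rw [pow_one] at h1
    rw [← h1]
    apply List.ext_getElem
    · rw [List.length_map, Equiv.Perm.length_toList, Equiv.Perm.length_toList,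
        Equiv.Perm.SameCycle.cycleOf_eq (f := M.φ) (x := M.φ b) (y := b)
          (by exact Equiv.Perm.SameCycle.symm (Equiv.Perm.sameCycle_apply_right.2
            (Equiv.Perm.SameCycle.refl _ _)))]
    · intro n h2 h3
      rw [List.getElem_map, Equiv.Perm.getElem_toList, Equiv.Perm.getElem_toList]
      rw [← Equiv.Perm.mul_apply, ← Equiv.Perm.mul_apply, ← pow_succ, ← pow_succ']
  · have := Equiv.Perm.two_le_length_toList_iff_mem_support (p := M.φ) (x := b)
    exact this.2 hs
  · intro S hbS hS d hd
    obtain ⟨k, rfl⟩ : ∃ k : ℕ, d = (M.φ ^ k) b := by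
      obtain ⟨i, hi, rfl⟩ := List.getElem_of_mem hd
      exact ⟨i, Equiv.Perm.getElem_toList M.φ b i hi⟩
    clear hd
    induction k with
    | zero => exact hbS
    | succ k ih =>
      rw [pow_succ', Equiv.Perm.mul_apply]
      exact hS _ ih

theorem wk_isW {V D : Type} {G : SimpleGraph V} (M : PMap V D)
    (hadj : ∀ d, G.Adj (M.f d) (M.f (M.ι d))) (F : List D) (hF : M.IsFace F) :
    ∃ x, IsW G x x (M.wk F) := by
  obtain ⟨h0, -, h2⟩ := hF
  cases F with
  | nil => exact absurd rfl h0
  | cons r l =>
    refine ⟨M.f r, ?_, ?_, ?_⟩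
    · have h3 : M.wk (r :: l) = M.f r :: ((r :: l).map M.φ).map M.f := by
        rw [h2]
        simp [PMap.wk]
      have key : ∀ (l : List D) (x : V), (∀ r, l.head? = some r → M.f r = x) →
          (∀ i, ∀ h : i + 1 < l.length, l[i + 1] = M.φ (l[i])) →
          (x :: (l.map M.φ).map M.f).IsChain G.Adj := by
        intro l
        induction l with
        | nil => intro x _ _; simp
        | cons r l ih =>
          intro x hx hl
          have hx' := hx r rfl
          simp only [List.map_cons]
          rw [List.isChain_cons_cons]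
          refine ⟨?_, ?_⟩
          · rw [← hx', ← M.tgt]
            exact hadj r
          · apply ih
            · intro r' hr'
              cases l with
              | nil => simp at hr'
              | cons r'' l' =>
                simp only [List.head?_cons, Option.some.injEq] at hr'
                subst hr'
                have := hl 0 (by simp)
                simp only [List.getElem_cons_zero, List.getElem_cons_succ] at this
                rw [← this]
            · intro i hi
              have := hl (i + 1) (by simpa using hi)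
              simpa using this
      rw [h3]
      apply key
      · intro r' hr'
        simp only [List.head?_cons, Option.some.injEq] at hr'
        rw [hr']
      · intro i hi
        have h4 : ((r :: l).map M.φ)[i]'(by simp at hi ⊢; omega) =
            ((r :: l).rotate 1)[i]'(by simp at hi ⊢; omega) := by
          simp only [h2]
        rw [List.getElem_map, List.getElem_rotate] at h4
        rw [h4]
        congr 1
        rw [Nat.mod_eq_of_lt hi]
    · simp [PMap.wk]
    · have h3 : M.wk (r :: l) = (M.f r :: l.map M.f) ++ [M.f r] := by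
        simp [PMap.wk]
      rw [h3, List.getLast?_concat]

theorem fillall_st (hP : PFillStatement) : FillAllStatement := by
  intro V G C₁ hq
  have key : ∀ (n : ℕ) (D : Type) [Fintype D] (M : PMap V D) (R : List D) (B : Set D),
      Nat.card B = n → M.Planar →
      (∀ d, G.Adj (M.f d) (M.f (M.ι d))) → M.IsFace R → (∀ d ∈ B, M.φ d ∈ B ∧ d ∉ R) →
      (∀ d, d ∉ B → d ∉ R → M.Tri3 d) →
      ∃ (D' : Type) (_ : Fintype D') (M' : PMap V D') (R' : List D'), IsPF G M' R' (M.wk R) ∧
        Fintype.card D' + Nat.card B ≤ Fintype.card D + 3 * (C₁ * (Nat.card B) ^ 2) := by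
    intro n
    induction n using Nat.strong_induction_on with
    | _ n ih =>
      intro D _ M R B hn hpl hadj hR hB hT
      rcases Set.eq_empty_or_nonempty B with rfl | ⟨b, hb⟩
      · refine ⟨D, inferInstance, M, R, ⟨hpl, hadj, hR, ⟨?_, ?_⟩, rfl⟩, by simp⟩
        · intro d hd
          exact (face_mem M.toDMap R hR d).2 hd
        · intro d hd
          exact hT d (by simp) hd
      -- the face of `b`
      have hbb : M.φ b ≠ b := by
        intro h
        have h1 := hadj b
        rw [M.tgt b, h] at h1
        exact h1.ne rfl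
      obtain ⟨F, hF, hbF, hF2, hFS⟩ := face_ex M.toDMap b hbb
      have hFB : ∀ d ∈ F, d ∈ B := hFS B hb (fun d hd => (hB d hd).1)
      obtain ⟨x, hx⟩ := wk_isW M hadj F hF
      have hlen : (M.wk F).length = F.length + 1 := by
        have h0 : 1 ≤ F.length := by omega
        simp [PMap.wk, h0]
      obtain ⟨k, e, hk, hkC⟩ := hq x (M.wk F) hx (by omega)
      rw [hlen, Nat.add_sub_cancel] at hkC
      obtain ⟨D', hD', M', j, hj, hjφ, hjf, hj3, hpl', hadj', -, hcard⟩ :=
        hP V D G Set.univ M F e k hpl hadj hF hk (fun _ => Set.mem_univ _)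
      have hRF : ∀ r ∈ R, r ∉ F := fun r hr h => (hB r (hFB r h)).2 hr
      obtain ⟨r0, hr0⟩ := List.exists_mem_of_ne_nil R hR.1
      obtain ⟨jj, hjj⟩ : ∃ jj : D → D', ∀ (d : D) (h : d ∉ F), jj d = j ⟨d, h⟩ := by
        refine ⟨fun d => if h : d ∉ F then j ⟨d, h⟩ else j ⟨r0, hRF r0 hr0⟩, ?_⟩
        intro d h
        simp only [dif_pos h]
      have hφF : ∀ d, d ∉ F → M.φ d ∉ F := fun d hd h => hd ((face_mem M.toDMap F hF d).1 h)
      have hjjφ : ∀ d, d ∉ F → M'.φ (jj d) = jj (M.φ d) := by
        intro d hd
        rw [hjj d hd, hjj _ (hφF d hd)]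
        exact hjφ ⟨d, hd⟩ ⟨M.φ d, hφF d hd⟩ rfl
      have hjji : ∀ d d', d ∉ F → d' ∉ F → jj d = jj d' → d = d' := by
        intro d d' hd hd' h
        rw [hjj d hd, hjj d' hd'] at h
        exact congrArg Subtype.val (hj h)
      have hR' : M'.IsFace (R.map jj) := by
        refine ⟨?_, ?_, ?_⟩
        · intro h
          exact hR.1 (List.map_eq_nil_iff.1 h)
        · exact List.Nodup.map_on (fun x hx y hy h => hjji x y (hRF x hx) (hRF y hy) h) hR.2.1
        · rw [List.map_map, ← List.map_rotate, ← hR.2.2, List.map_map]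
          apply List.map_congr_left
          intro x hx
          exact hjjφ x (hRF x hx)
      -- the remaining faces
      have hcB : Nat.card B = Nat.card (jj '' (B \ {d | d ∈ F}) : Set D') + F.length := by
        have h1 : Set.InjOn jj (B \ {d | d ∈ F}) := fun d hd d' hd' h => hjji d d' hd.2 hd'.2 h
        rw [Nat.card_coe_set_eq, Nat.card_coe_set_eq, h1.ncard_image]
        have h2 : ({d | d ∈ F} : Set D) ⊆ B := fun d hd => hFB d hd
        have h3 : ({d | d ∈ F} : Set D).ncard = F.length := by
          have h4 : ({d | d ∈ F} : Set D) = ((F.toFinset : Finset D) : Set D) := by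
            ext d; simp
          rw [h4, Set.ncard_coe_finset, List.toFinset_card_of_nodup hF.2.1]
        rw [← h3, Set.ncard_sdiff_add_ncard_of_subset h2]
      obtain ⟨D'', hD'', M'', R'', hpf, hc⟩ := ih (Nat.card (jj '' (B \ {d | d ∈ F}) : Set D'))
        (by omega) D' M' (R.map jj) (jj '' (B \ {d | d ∈ F})) rfl hpl' hadj' hR' (by
          rintro _ ⟨d, ⟨hd1, hd2⟩, rfl⟩
          refine ⟨⟨M.φ d, ⟨(hB d hd1).1, hφF d hd2⟩, (hjjφ d hd2).symm⟩, ?_⟩
          intro h
          obtain ⟨r, hr, hrd⟩ := List.mem_map.1 h
          have := hjji r d (hRF r hr) hd2 hrd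
          subst this
          exact (hB r hd1).2 hr) (by
          intro d' h1 h2
          by_cases h3 : ∃ x, j x = d'
          · obtain ⟨⟨d, hd⟩, rfl⟩ := h3
            have hdB : d ∉ B := by
              intro h
              exact h1 ⟨d, ⟨h, hd⟩, hjj d hd⟩
            have hdR : d ∉ R := by
              intro h
              exact h2 (List.mem_map.2 ⟨d, h, hjj d hd⟩)
            obtain ⟨t1, t2⟩ := hT d hdB hdR
            have hd' := hφF d hd
            have hd'' := hφF _ hd'
            rw [← hjj d hd]
            refine ⟨?_, ?_⟩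
            · rw [hjjφ d hd, hjjφ _ hd', hjjφ _ hd'', t1]
            · rw [hjjφ d hd]
              intro h
              exact t2 (hjji _ _ hd' hd h)
          · exact hj3 d' (fun x hx => h3 ⟨x, hx⟩))
      refine ⟨D'', hD'', M'', R'', ?_, ?_⟩
      · have hwk : M'.wk (R.map jj) = M.wk R := by
          have h1 : (R.map jj).map M'.f = R.map M.f := by
            rw [List.map_map]
            apply List.map_congr_left
            intro r hr
            show M'.f (jj r) = M.f r
            rw [hjj r (hRF r hr), hjf]
          unfold PMap.wk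
          rw [h1]
        rw [← hwk]
        exact hpf
      · rw [hcB]
        generalize Nat.card (jj '' (B \ {d | d ∈ F}) : Set D') = b' at hc
        have h1 : C₁ * F.length ^ 2 + C₁ * b' ^ 2 ≤ C₁ * (b' + F.length) ^ 2 := by
          rw [← mul_add]
          apply Nat.mul_le_mul_left
          nlinarith [Nat.zero_le (b' * F.length)]
        omega
  intro D _ M R B
  exact key _ D M R B rfl

end MSG.F74

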